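import Pool.Agent.Helper74_RL.Stmts

/-!
# RMJ (helper11, MP_62da59_gt): the blow-ups are Riemannian manifolds with `Ric ≥ -1`
-/

noncomputable section

open scoped ContDiff Topology ENNReal RealInnerProductSpace BoundedContinuousFunction
set_option maxSynthPendingDepth 3
open Set Metric

namespace Pool.Agent.RLim.H11

open Pool.Agent.RLim Pool.Agent.RF
open Pool.Agent.SecondKind (mat eqE ricci)

/-- a parametrization with a metric with `Ric ≥ -1` -/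
structure Good {M : Type} [TopologicalSpace M] (U : Set E4) (ψ : E4 → M) (G : E4 → Bil E4) :
    Prop where
  met : IsMetricOn G U
  emb : Topology.IsOpenEmbedding (fun q : U => ψ q)
  ric : ∀ q ∈ U, ∀ V, -(G q V V) ≤ ric G q V V

theorem transE_refl {M : Type} (U : Set E4) (ψ : E4 → M) (G : E4 → Bil E4) :
    TransE U ψ G U ψ G := by
  refine ⟨id, contDiffOn_id, fun q hq => ⟨hq.1, rfl, fun V W => ?_⟩⟩
  simp

theorem good_main (hPsi : PsiStmt) (D : MetricData) (j : ℕ) :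
    Good (U0 D j) (psi0 D j) (D.g j) :=
  ⟨D.metric j, (hPsi D j).1, fun q hq V => D.ric_ge j q hq V⟩

theorem good_exc (hPsi : PsiStmt) (hG : G1mStmt) (D : MetricData) (j : ℕ) (k : Fin j) (i : Bool) :
    Good U1 (psi1 D j k i) (G1 D j k i) :=
  ⟨(hG D j k i).1, (hPsi D j).2.1 k i, (hG D j k i).2⟩

theorem atl_good (hPsi : PsiStmt) (hG : G1mStmt) (D : MetricData) (j : ℕ) (C : Chart 4 (Bl D j))
    (hC : C ∈ atl D j) : ∃ U ψ G, C = mkC U ψ G ∧ Good U ψ G := by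
  rcases hC with rfl | ⟨k, i, rfl⟩
  · exact ⟨_, _, _, rfl, good_main hPsi D j⟩
  · exact ⟨_, _, _, rfl, good_exc hPsi hG D j k i⟩

theorem atl_pair (hPsi : PsiStmt) (hG : G1mStmt) (hT1 : Tr1Stmt) (hT2 : Tr2Stmt)
    (D : MetricData) (j : ℕ) (C C' : Chart 4 (Bl D j))
    (hC : C ∈ atl D j) (hC' : C' ∈ atl D j) : ∃ U ψ G U' ψ' G', C = mkC U ψ G ∧ Good U ψ G ∧
      C' = mkC U' ψ' G' ∧ Good U' ψ' G' ∧ TransE U ψ G U' ψ' G' := by
  rcases hC with rfl | ⟨k, i, rfl⟩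
  · rcases hC' with rfl | ⟨l, i', rfl⟩
    · exact ⟨_, _, _, _, _, _, rfl, good_main hPsi D j, rfl, good_main hPsi D j,
        transE_refl _ _ _⟩
    · exact ⟨_, _, _, _, _, _, rfl, good_main hPsi D j, rfl, good_exc hPsi hG D j l i',
        (hT1 D j l i').1⟩
  · rcases hC' with rfl | ⟨l, i', rfl⟩
    · exact ⟨_, _, _, _, _, _, rfl, good_exc hPsi hG D j k i, rfl, good_main hPsi D j,
        (hT1 D j k i).2⟩
    · exact ⟨_, _, _, _, _, _, rfl, good_exc hPsi hG D j k i, rfl, good_exc hPsi hG D j l i',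
        hT2 D j k l i i'⟩

theorem ricci_ge_of (hMkc : MkcStmt) {M : Type} [TopologicalSpace M] {U : Set E4} {ψ : E4 → M}
    {G : E4 → Bil E4} (h : Good U ψ G) (y : Fin 4 → ℝ) (hy : y ∈ (mkC U ψ G).U)
    (v : Fin 4 → ℝ) : -(1:ℝ) * (mkC U ψ G).quad y v ≤
      ∑ i, ∑ j, ricci (mkC U ψ G).g i j y * v i * v j := by
  obtain ⟨_, _, _, _, h5, _, _⟩ := hMkc M U ψ G h.met
  have hq : (eqE 4).symm y ∈ U := hy
  have h6 := h5 _ hq ((eqE 4).symm v)
  rw [ContinuousLinearEquiv.apply_symm_apply] at h6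
  have h7 : (∑ i, ∑ j, ricci (mkC U ψ G).g i j y * v i * v j) =
      ric G ((eqE 4).symm y) ((eqE 4).symm v) ((eqE 4).symm v) := h6
  rw [h7, mkC_quad']
  have := h.ric _ hq ((eqE 4).symm v)
  linarith

/-- RMJ -/
theorem rmj (hPsi : PsiStmt) (hMkc : MkcStmt) (hT1 : Tr1Stmt) (hT2 : Tr2Stmt) (hG : G1mStmt)
    (hClo : CloStmt) (hBic : BicStmt) : RmjStmt := by
  intro D j c C h hglb
  refine @IsRicciManifold.mk 4 1 (Bl D j) (bilMet h) (atl D j) ?_ ?_ ?_ ?_ ?_ ?_ ?_ ?_ ?_ ?_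
  · exact hBic (Bl D j) (dd D j) c C h ((hClo D).1 j).completeSpace_coe
  · exact (hPsi D j).2.2.2.2.2
  · intro K hK
    obtain ⟨U, ψ, G, rfl, hgd⟩ := atl_good hPsi hG D j K hK
    exact (hMkc _ U ψ G hgd.met).1
  · intro K hK
    obtain ⟨U, ψ, G, rfl, hgd⟩ := atl_good hPsi hG D j K hK
    exact (hMkc _ U ψ G hgd.met).2.2.2.2.2.1 hgd.emb
  · intro K hK
    obtain ⟨U, ψ, G, rfl, hgd⟩ := atl_good hPsi hG D j K hK
    exact (hMkc _ U ψ G hgd.met).2.1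
  · intro K hK
    obtain ⟨U, ψ, G, rfl, hgd⟩ := atl_good hPsi hG D j K hK
    exact (hMkc _ U ψ G hgd.met).2.2.1
  · intro K hK
    obtain ⟨U, ψ, G, rfl, hgd⟩ := atl_good hPsi hG D j K hK
    exact (hMkc _ U ψ G hgd.met).2.2.2.1
  · intro K hK K' hK'
    obtain ⟨U, ψ, G, U', ψ', G', rfl, hgd, rfl, hgd', ht⟩ :=
      atl_pair hPsi hG hT1 hT2 D j K K' hK hK'
    exact (hMkc _ U ψ G hgd.met).2.2.2.2.2.2 U' ψ' G' hgd'.met hgd.emb hgd'.emb ht
  · intro K hK y hy v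
    obtain ⟨U, ψ, G, rfl, hgd⟩ := atl_good hPsi hG D j K hK
    exact ricci_ge_of hMkc hgd y hy v
  · exact hglb

end Pool.Agent.RLim.H11
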